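import Pool.Agent.V5helper78.IK.Stm

/-!
# Project IK, jobs INT, VOL, DET, GAM, LIM
-/

set_option autoImplicit false

namespace Pool.Agent.V5helper72.IK

open MeasureTheory Set Filter Topology Real
open scoped ENNReal InnerProductSpace
open Pool.Agent.V5helper78.IK

section
variable {n : ℕ} {g : E n → ℝ}

theorem Nm.nonneg (h : Nm g) (x : E n) : 0 ≤ g x := by
  obtain ⟨c, hc, hl⟩ := h.low
  exact (by positivity : 0 ≤ c * ‖x‖).trans (hl x)

theorem Nm.zero (h : Nm g) : g 0 = 0 := by
  have := h.smul 0 0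
  simpa using this

theorem gauss_int (n : ℕ) {b : ℝ} (hb : 0 < b) :
    Integrable (fun x : E n => Real.exp (-b * ‖x‖ ^ 2)) := by
  have h := (GaussianFourier.integrable_cexp_neg_mul_sq_norm_add (V := E n) (b := (b : ℂ))
    (by simpa using hb) 0 0).norm
  refine h.congr (Filter.Eventually.of_forall fun x => ?_)
  simp only [zero_mul, add_zero]
  rw [Complex.norm_exp]
  congr 1
  have : (-(b : ℂ) * (‖x‖ : ℂ) ^ 2) = ((-b * ‖x‖ ^ 2 : ℝ) : ℂ) := by push_cast; ring
  rw [this, Complex.ofReal_re]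

/-- **INT** -/
theorem t_INT : S_INT := by
  intro n g A k h
  obtain ⟨c, hc, hl⟩ := h.low
  have ha : 0 < c ^ 2 / 2 := by positivity
  set a : ℝ := c ^ 2 / 2 with hadef
  have hmaj := (gauss_int n ha).const_mul (1 + (k.factorial : ℝ) / a ^ k)
  refine hmaj.mono' ?_ (Filter.Eventually.of_forall fun x => ?_)
  · have h1 : Continuous fun x : E n => ‖x‖ ^ k * Real.exp (-(En g A x)) := by
      have := h.cont
      unfold En
      fun_prop
    exact h1.aestronglyMeasurable
  · rw [Real.norm_eq_abs, abs_of_nonneg (by positivity)]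
    have h1 : c ^ 2 * ‖x‖ ^ 2 ≤ En g A x := by
      unfold En
      have h2 := hl x
      have h3 : (c * ‖x‖) ^ 2 ≤ g x ^ 2 := by
        have : 0 ≤ c * ‖x‖ := by positivity
        gcongr
      nlinarith [sq_nonneg ‖A x‖]
    have h2 : Real.exp (-(En g A x)) ≤ Real.exp (-a * ‖x‖ ^ 2) * Real.exp (-(a * ‖x‖ ^ 2)) := by
      rw [← Real.exp_add]
      apply Real.exp_le_exp.2
      rw [hadef]
      linarith
    have h3 : ‖x‖ ^ k ≤ (1 + (k.factorial : ℝ) / a ^ k) * Real.exp (a * ‖x‖ ^ 2) := by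
      have h4 : (a * ‖x‖ ^ 2) ^ k / k.factorial ≤ Real.exp (a * ‖x‖ ^ 2) :=
        Real.pow_div_factorial_le_exp _ (by positivity) k
      have h5 : (‖x‖ ^ k) ^ 2 ≤ (k.factorial : ℝ) / a ^ k * Real.exp (a * ‖x‖ ^ 2) := by
        have h6 : (‖x‖ ^ k) ^ 2 = (k.factorial : ℝ) / a ^ k * ((a * ‖x‖ ^ 2) ^ k / k.factorial) := by
          have : (k.factorial : ℝ) ≠ 0 := by positivity
          rw [mul_pow, ← pow_mul, ← pow_mul, mul_comm k 2]
          field_simp
        rw [h6]
        exact mul_le_mul_of_nonneg_left h4 (by positivity)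
      have h7 : ‖x‖ ^ k ≤ 1 + (‖x‖ ^ k) ^ 2 := by nlinarith [sq_nonneg (‖x‖ ^ k - 1), sq_nonneg (‖x‖ ^ k)]
      have h8 : 1 ≤ Real.exp (a * ‖x‖ ^ 2) := Real.one_le_exp (by positivity)
      linarith
    calc ‖x‖ ^ k * Real.exp (-(En g A x))
        ≤ ((1 + (k.factorial : ℝ) / a ^ k) * Real.exp (a * ‖x‖ ^ 2)) *
          (Real.exp (-a * ‖x‖ ^ 2) * Real.exp (-(a * ‖x‖ ^ 2))) := by
          gcongr
      _ = (1 + (k.factorial : ℝ) / a ^ k) * Real.exp (-a * ‖x‖ ^ 2) *
          (Real.exp (a * ‖x‖ ^ 2) * Real.exp (-(a * ‖x‖ ^ 2))) := by ring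
      _ = _ := by rw [← Real.exp_add, add_neg_cancel, Real.exp_zero, mul_one]

/-- **VOL** -/
theorem t_VOL : S_VOL := by
  intro n g A hn h
  have hnt : Nontrivial (E n) := by
    have : Nonempty (Fin n) := ⟨⟨0, hn⟩⟩
    infer_instance
  have hE : ∀ x, 0 ≤ En g A x := fun x => by unfold En; positivity
  have S0 : √(En g A 0) = 0 := by
    simp [En, Nm.zero h]
  have S1 : ∀ x : E n, √(En g A (-x)) = √(En g A x) := by
    intro x
    have h1 : g (-x) = g x := by
      have := h.smul (-1) x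
      simpa using this
    simp [En, h1]
  have S2 : ∀ x y : E n, √(En g A (x + y)) ≤ √(En g A x) + √(En g A y) := by
    intro x y
    have h1 := h.add x y
    have h2 : ‖A (x + y)‖ ≤ ‖A x‖ + ‖A y‖ := by rw [map_add]; exact norm_add_le _ _
    have hx := Nm.nonneg h x
    have hy := Nm.nonneg h y
    have hxy := Nm.nonneg h (x + y)
    have h3 : √(En g A (x + y)) ≤ √((g x + g y) ^ 2 + (‖A x‖ + ‖A y‖) ^ 2) := by
      apply Real.sqrt_le_sqrt
      unfold En
      gcongr
    refine h3.trans ?_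
    have h4 : 0 ≤ √(En g A x) + √(En g A y) := by positivity
    rw [Real.sqrt_le_left h4]
    have h5 : g x * g y + ‖A x‖ * ‖A y‖ ≤ √(En g A x) * √(En g A y) := by
      rw [← Real.sqrt_mul (hE x)]
      apply Real.le_sqrt_of_sq_le
      unfold En
      nlinarith [sq_nonneg (g x * ‖A y‖ - g y * ‖A x‖)]
    have h6 := Real.sq_sqrt (hE x)
    have h7 := Real.sq_sqrt (hE y)
    have h8 : En g A x = g x ^ 2 + ‖A x‖ ^ 2 := rfl
    have h9 : En g A y = g y ^ 2 + ‖A y‖ ^ 2 := rfl
    nlinarith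
  have S3 : ∀ x : E n, √(En g A x) = 0 → x = 0 := by
    intro x hx
    have h1 : En g A x = 0 := by
      rwa [Real.sqrt_eq_zero (hE x)] at hx
    have h2 : g x = 0 := by
      unfold En at h1
      nlinarith [sq_nonneg (g x), sq_nonneg ‖A x‖]
    obtain ⟨c, hc, hl⟩ := h.low
    have h3 := hl x
    rw [h2] at h3
    have h4 : ‖x‖ ≤ 0 := by
      by_contra hcon
      push Not at hcon
      have := mul_pos hc hcon
      linarith
    exact norm_le_zero_iff.1 h4
  have S4 : ∀ (r : ℝ) (x : E n), √(En g A (r • x)) ≤ |r| * √(En g A x) := by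
    intro r x
    have e1 : En g A (r • x) = r ^ 2 * En g A x := by
      unfold En
      rw [h.smul, map_smul, norm_smul, Real.norm_eq_abs, mul_pow, mul_pow, sq_abs]
      ring
    show √(En g A (r • x)) ≤ |r| * √(En g A x)
    rw [e1, Real.sqrt_mul (sq_nonneg r), Real.sqrt_sq_eq_abs]
  obtain ⟨key, key2⟩ : (volume {x : E n | √(En g A x) < 1} =
      .ofReal ((∫ (x : E n), Real.exp (-(√(En g A x)) ^ (2 : ℝ))) /
        Real.Gamma (Module.finrank ℝ (E n) / 2 + 1))) ∧
      volume {x : E n | √(En g A x) ≤ 1} = volume {x : E n | √(En g A x) < 1} := by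
    constructor
    · refine MeasureTheory.measure_lt_one_eq_integral_div_gamma (E := E n) (volume : Measure (E n))
        (g := fun x => √(En g A x)) ?_ ?_ ?_ ?_ ?_ (p := 2) two_pos
      · exact S0
      · exact S1
      · exact S2
      · exact fun {x} => S3 x
      · exact S4
    · refine MeasureTheory.measure_le_eq_lt (E := E n) (volume : Measure (E n))
        (g := fun x => √(En g A x)) ?_ ?_ ?_ ?_ ?_ 1
      · exact S0
      · exact S1
      · exact S2
      · exact fun {x} => S3 x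
      · exact S4
  have e1 : {x | En g A x ≤ 1} = {x : E n | √(En g A x) ≤ 1} := by
    ext x
    show En g A x ≤ 1 ↔ √(En g A x) ≤ 1
    rw [Real.sqrt_le_left zero_le_one, one_pow]
  rw [e1, key2, key]
  congr 2
  · unfold F
    refine integral_congr_ae (Filter.Eventually.of_forall fun x => ?_)
    simp only
    rw [Real.rpow_two, Real.sq_sqrt (hE x)]
  · rw [finrank_euclideanSpace_fin]

/-- **DET** -/
theorem t_DET : S_DET := by
  intro n g A h
  by_cases hd : A.det = 0
  · rw [hd, abs_zero, zero_mul]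
    positivity
  · have hd' : LinearMap.det (A : E n →ₗ[ℝ] E n) ≠ 0 := hd
    have hmap := Measure.map_linearMap_addHaar_eq_smul_addHaar (volume : Measure (E n)) hd'
    have hgi := gauss_int n one_pos
    have hcomp : Integrable (fun x : E n => Real.exp (-1 * ‖A x‖ ^ 2)) := by
      have h1 : Integrable (fun x : E n => Real.exp (-1 * ‖x‖ ^ 2))
          (Measure.map (A : E n →ₗ[ℝ] E n) volume) := by
        rw [hmap]
        exact hgi.smul_measure ENNReal.ofReal_ne_top
      exact h1.comp_measurable A.continuous.measurable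
    have hint : ∫ x : E n, Real.exp (-1 * ‖A x‖ ^ 2) =
        |A.det|⁻¹ * π ^ ((n : ℝ) / 2) := by
      have h1 : ∫ x : E n, Real.exp (-1 * ‖A x‖ ^ 2) =
          ∫ y, Real.exp (-1 * ‖y‖ ^ 2) ∂(Measure.map (A : E n →ₗ[ℝ] E n) volume) := by
        exact (integral_map (μ := volume) (φ := fun x => A x) A.continuous.measurable.aemeasurable
          (by fun_prop : Continuous fun y : E n => Real.exp (-1 * ‖y‖ ^ 2)).aestronglyMeasurable).symm
      rw [h1, hmap, integral_smul_measure, GaussianFourier.integral_rexp_neg_mul_sq_norm one_pos,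
        finrank_euclideanSpace_fin, div_one, ENNReal.toReal_ofReal (abs_nonneg _), abs_inv, smul_eq_mul]
    have hle : F g A ≤ ∫ x : E n, Real.exp (-1 * ‖A x‖ ^ 2) := by
      unfold F
      have hi := t_INT n g A 0 h
      simp only [pow_zero, one_mul] at hi
      refine integral_mono hi hcomp fun x => ?_
      apply Real.exp_le_exp.2
      unfold En
      nlinarith [sq_nonneg (g x)]
    have hpos : 0 < |A.det| := abs_pos.2 hd
    calc |A.det| * F g A ≤ |A.det| * (|A.det|⁻¹ * π ^ ((n : ℝ) / 2)) := by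
          rw [← hint]; gcongr
      _ = π ^ ((n : ℝ) / 2) := by rw [mul_inv_cancel_left₀ hpos.ne']

end

/-- **GAM** -/
theorem t_GAM : S_GAM := by
  intro n hn
  have hn' : (0 : ℝ) < n := by exact_mod_cast hn
  set x : ℝ := (n : ℝ) / 2 with hx
  have hx0 : 0 < x := by positivity
  have e1 : (n : ℝ) / (2 * Real.exp 1) = x * (Real.exp 1)⁻¹ := by rw [hx]; field_simp
  have e2 : ((n : ℝ) / (2 * Real.exp 1)) ^ x = x ^ x * Real.exp (-x) := by
    rw [e1, Real.mul_rpow hx0.le (by positivity), ← Real.exp_neg, ← Real.exp_mul]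
    congr 2
    ring
  rw [e2, Real.Gamma_eq_integral (by positivity)]
  have hconv := Real.GammaIntegral_convergent (show 0 < x + 1 by positivity)
  calc x ^ x * Real.exp (-x) = ∫ t in Ioi x, x ^ x * Real.exp (-t) := by
        rw [integral_const_mul, integral_exp_neg_Ioi]
    _ ≤ ∫ t in Ioi x, Real.exp (-t) * t ^ (x + 1 - 1) := by
        refine setIntegral_mono_on ?_ (hconv.mono_set (Ioi_subset_Ioi hx0.le)) measurableSet_Ioi ?_
        · exact (exp_neg_integrableOn_Ioi x one_pos |>.congr_fun (fun t _ => by simp) measurableSet_Ioi).const_mul _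
        · intro t ht
          rw [add_sub_cancel_right, mul_comm]
          have : x ^ x ≤ t ^ x := Real.rpow_le_rpow hx0.le (le_of_lt ht) hx0.le
          gcongr
    _ ≤ ∫ t in Ioi 0, Real.exp (-t) * t ^ (x + 1 - 1) := by
        refine setIntegral_mono_set hconv ?_ (Ioi_subset_Ioi hx0.le).eventuallyLE
        refine (ae_restrict_iff' measurableSet_Ioi).2 (Filter.Eventually.of_forall fun t ht => ?_)
        have : 0 < t := ht
        positivity

/-- **LIM** -/
theorem t_LIM : S_LIM := by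
  intro δ L hδ hL
  set M : ℝ := 400 * L ^ 2 with hM
  have hM0 : 0 < M := by positivity
  have hc : Continuous fun ε : ℝ => Real.exp (ε * Real.log ε - ε * Real.log M) := by
    have := Real.continuous_mul_log
    fun_prop
  have h0 : Tendsto (fun ε : ℝ => Real.exp (ε * Real.log ε - ε * Real.log M)) (𝓝[>] 0) (𝓝 1) := by
    have h1 := hc.tendsto 0
    simp only [zero_mul, sub_self, Real.exp_zero] at h1
    exact h1.mono_left nhdsWithin_le_nhds
  have h1 := h0.eventually (lt_mem_nhds (show 1 - δ < 1 by linarith))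
  have h2 : ∀ᶠ ε : ℝ in 𝓝[>] 0, ε < 1 / 2 :=
    (lt_mem_nhds (show (0 : ℝ) < 1 / 2 by norm_num) |> fun h => nhdsWithin_le_nhds
      (show ∀ᶠ ε : ℝ in 𝓝 0, ε < 1 / 2 from Iio_mem_nhds (by norm_num)))
  obtain ⟨ε, ⟨h3, h4⟩, h5⟩ := ((h1.and h2).and self_mem_nhdsWithin).exists
  have h5' : 0 < ε := h5
  refine ⟨ε, h5', h4.le, ?_⟩
  rw [Real.rpow_def_of_pos (by positivity), Real.log_div h5'.ne' hM0.ne']
  have e : (Real.log ε - Real.log M) * ε = ε * Real.log ε - ε * Real.log M := by ring
  rw [e]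
  exact h3.le

end Pool.Agent.V5helper72.IK
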